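import Pool.Agent.V11164.NewtonMore

set_option autoImplicit false

open Metric Set
open scoped Pointwise
open Pool.Agent.V11164.Newton (E cube base apex pyramid)

namespace Pool.Agent.Results.MP_5875c4_co.PyramidFormulaFails

/-- The Newton covering number `N*(C)`: the least number `k` of congruent copies (images under
isometries) of `C` whose union contains `C + ε B` for some `ε > 0`, `B` the closed unit ball. -/
noncomputable def newton {d : ℕ} (C : Set (E d)) : ℕ :=
  sInf {k : ℕ | ∃ g : Fin k → (E d ≃ᵢ E d), ∃ ε : ℝ, 0 < ε ∧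
    C + ε • closedBall (0 : E d) 1 ⊆ ⋃ i, g i '' C}

lemma covers_iff {d k : ℕ} {C : Set (E d)} (hC : IsCompact C) (g : Fin k → (E d ≃ᵢ E d)) :
    (∃ ε : ℝ, 0 < ε ∧ C + ε • closedBall (0 : E d) 1 ⊆ ⋃ i, g i '' C) ↔
      Pool.Agent.V11164.Newton.Covers C g := by
  have hball : ∀ ε : ℝ, 0 < ε → C + ε • closedBall (0 : E d) 1 = cthickening ε C := by
    intro ε hε
    rw [_root_.smul_closedBall _ _ zero_le_one, smul_zero, Real.norm_of_nonneg hε.le, mul_one,
      hC.add_closedBall_zero hε.le]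
  constructor
  · rintro ⟨ε, hε, hsub⟩
    rw [hball ε hε] at hsub
    exact ⟨thickening ε C, isOpen_thickening, self_subset_thickening hε C,
      (thickening_subset_cthickening ε C).trans hsub⟩
  · rintro ⟨U, hU, hCU, hUg⟩
    obtain ⟨ε, hε, hsub⟩ := hC.exists_cthickening_subset_open hU hCU
    exact ⟨ε, hε, by rw [hball ε hε]; exact hsub.trans hUg⟩

/-- In every dimension `d = n + 1 ≥ 2`, for all sufficiently large heights `h`, the Newton
covering number of the right pyramid `P^d(h)` equals `2`, while that of the cube `C^(d-1)` is at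
least `2`; so `N*(P^d(h)) ≠ N*(C^(d-1)) + 1`. -/
theorem result (n : ℕ) (hn : 1 ≤ n) : ∃ H : ℝ, 0 < H ∧ ∀ h : ℝ, H ≤ h →
    newton (pyramid n h) = 2 ∧ 2 ≤ newton (cube n) ∧
      newton (pyramid n h) ≠ newton (cube n) + 1 := by
  obtain ⟨H, hH, hup⟩ := Pool.Agent.V11164.Newton.upper hn
  have hcube : 2 ≤ newton (cube n) := by
    have hc := Pool.Agent.V11164.Newton.isCompact_cube n
    obtain ⟨m, g, hg⟩ := Pool.Agent.V11164.Newton.cube_covers n
    refine le_csInf ⟨m, g, (covers_iff hc g).2 hg⟩ ?_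
    rintro k ⟨g, hg⟩
    exact Pool.Agent.V11164.Newton.two_le hc (Pool.Agent.V11164.Newton.cube_two_points hn) g
      ((covers_iff hc g).1 hg)
  refine ⟨H, hH, fun h hh => ?_⟩
  have hh0 : 0 < h := hH.trans_le hh
  have hc := Pool.Agent.V11164.Newton.isCompact_pyramid n hh0
  have h2 : newton (pyramid n h) = 2 := by
    obtain ⟨g, hg⟩ := hup h hh
    have hmem : ∃ g : Fin 2 → (E (n + 1) ≃ᵢ E (n + 1)), ∃ ε : ℝ, 0 < ε ∧
        pyramid n h + ε • closedBall (0 : E (n + 1)) 1 ⊆ ⋃ i, g i '' pyramid n h :=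
      ⟨g, (covers_iff hc g).2 hg⟩
    apply le_antisymm
    · exact Nat.sInf_le hmem
    · refine le_csInf ⟨2, hmem⟩ ?_
      rintro k ⟨g, hg⟩
      exact Pool.Agent.V11164.Newton.two_le hc
        (Pool.Agent.V11164.Newton.pyramid_two_points hn h) g ((covers_iff hc g).1 hg)
  refine ⟨h2, hcube, ?_⟩
  omega

end Pool.Agent.Results.MP_5875c4_co.PyramidFormulaFails
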